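import Pool.Agent.H14.Sg.A

/-! # [H14 Sg D] prime factors of `n` and of `n + 2`: `(p q)² ≤ 162 n³` for every solution -/

namespace Pool.Agent.H14.Sg

open Finset

private theorem sq_bd {n : ℤ} (h : 1 ≤ n) : (n + 2) ^ 2 ≤ 9 * n ^ 2 := by nlinarith

theorem pq_le {n : ℕ} (hn : 0 < n) (h : s2 n = s2 (n + 2)) {p q : ℕ} (hp : p.Prime) (hq : q.Prime) (hpn : p ∣ n)
    (hqn : q ∣ n + 2) : (p * q) ^ 2 ≤ 162 * n ^ 3 := by
  obtain ⟨m, hm⟩ := hpn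
  obtain ⟨k, hk⟩ := hqn
  have hm0 : 0 < m := by
    rcases Nat.eq_zero_or_pos m with h1 | h1
    · rw [h1] at hm
      omega
    · exact h1
  have hk0 : 0 < k := by
    rcases Nat.eq_zero_or_pos k with h1 | h1
    · rw [h1] at hk
      omega
    · exact h1
  have hple : p ≤ n := by
    rw [hm]
    exact Nat.le_mul_of_pos_right p hm0
  have hqle : q ≤ n + 2 := by
    rw [hk]
    exact Nat.le_mul_of_pos_right q hk0
  have hq3 : q ≤ 3 * n := by omega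
  -- if `p² ≤ 2 n` or `q² ≤ 9 n`
  have hA : p ^ 2 ≤ 2 * n → (p * q) ^ 2 ≤ 162 * n ^ 3 := by
    intro h1
    calc (p * q) ^ 2 = p ^ 2 * q ^ 2 := by ring
      _ ≤ (2 * n) * (3 * n) ^ 2 := Nat.mul_le_mul h1 (Nat.pow_le_pow_left hq3 2)
      _ = 18 * n ^ 3 := by ring
      _ ≤ 162 * n ^ 3 := Nat.mul_le_mul_right _ (by norm_num)
  have hB : q ^ 2 ≤ 9 * n → (p * q) ^ 2 ≤ 162 * n ^ 3 := by
    intro h1
    calc (p * q) ^ 2 = p ^ 2 * q ^ 2 := by ring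
      _ ≤ n ^ 2 * (9 * n) := Nat.mul_le_mul (Nat.pow_le_pow_left hple 2) h1
      _ = 9 * n ^ 3 := by ring
      _ ≤ 162 * n ^ 3 := Nat.mul_le_mul_right _ (by norm_num)
  by_cases hpm : p ∣ m
  · apply hA
    have h1 : p ≤ m := Nat.le_of_dvd hm0 hpm
    rw [hm]
    nlinarith
  by_cases hqk : q ∣ k
  · apply hB
    have h1 : q ≤ k := Nat.le_of_dvd hk0 hqk
    have h2 : q ^ 2 ≤ n + 2 := by
      rw [hk]
      nlinarith
    omega
  by_cases hmn : n < m ^ 2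
  · apply hA
    have h1 : p ^ 2 * m ^ 2 = n ^ 2 := by
      rw [hm]
      ring
    by_contra hcon
    push Not at hcon
    nlinarith
  by_cases hkn : n < k ^ 2
  · apply hB
    have h1 : q ^ 2 * k ^ 2 = (n + 2) ^ 2 := by
      rw [hk]
      ring
    by_contra hcon
    push Not at hcon
    have h2 : (9 * n + 1) * (n + 1) ≤ q ^ 2 * k ^ 2 := Nat.mul_le_mul hcon hkn
    rw [h1] at h2
    nlinarith
  push Not at hmn hkn
  have e1 : s2 n = (p ^ 2 + 1) * s2 m := by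
    rw [hm, s2_mul ((Nat.Prime.coprime_iff_not_dvd hp).2 hpm), s2_prime hp]
  have e2 : s2 (n + 2) = (q ^ 2 + 1) * s2 k := by
    rw [hk, s2_mul ((Nat.Prime.coprime_iff_not_dvd hq).2 hqk), s2_prime hq]
  rw [e1, e2] at h
  have hz : ((p : ℤ) ^ 2 + 1) * s2 m = (q ^ 2 + 1) * s2 k := by exact_mod_cast h
  have hmz : (n : ℤ) = p * m := by exact_mod_cast hm
  have hkz : (n : ℤ) + 2 = q * k := by exact_mod_cast hk
  have hsm : (s2 m : ℤ) ≤ 2 * m ^ 2 := by exact_mod_cast s2_le m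
  have hsk : (s2 k : ℤ) ≤ 2 * k ^ 2 := by exact_mod_cast s2_le k
  have hsm0 : (0 : ℤ) ≤ s2 m := Int.natCast_nonneg _
  have hsk0 : (0 : ℤ) ≤ s2 k := Int.natCast_nonneg _
  have hmz0 : (0 : ℤ) < m := by exact_mod_cast hm0
  have hkz0 : (0 : ℤ) < k := by exact_mod_cast hk0
  have hnz0 : (0 : ℤ) < n := by exact_mod_cast hn
  have hmn' : (m : ℤ) ^ 2 ≤ n := by exact_mod_cast hmn
  have hkn' : (k : ℤ) ^ 2 ≤ n := by exact_mod_cast hkn
  -- the determinant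
  have key : ((s2 m : ℤ) * k ^ 2 - s2 k * m ^ 2) * n ^ 2 =
      s2 k * m ^ 2 * (4 * n + 4 + k ^ 2) - s2 m * k ^ 2 * m ^ 2 := by
    have h1 : ((p : ℤ) ^ 2 + 1) * s2 m * (m ^ 2 * k ^ 2) = (q ^ 2 + 1) * s2 k * (m ^ 2 * k ^ 2) := by rw [hz]
    have h2 : (n : ℤ) ^ 2 = p ^ 2 * m ^ 2 := by
      rw [hmz]
      ring
    have h3 : ((n : ℤ) + 2) ^ 2 = q ^ 2 * k ^ 2 := by
      rw [hkz]
      ring
    linear_combination h1 + (s2 m : ℤ) * k ^ 2 * h2 - (s2 k : ℤ) * m ^ 2 * h3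
  have hbig : (n : ℤ) ^ 2 ≤ 18 * n * (m ^ 2 * k ^ 2) := by
    rcases lt_trichotomy ((s2 m : ℤ) * k ^ 2 - s2 k * m ^ 2) 0 with h1 | h1 | h1
    · have h2 : ((s2 m : ℤ) * k ^ 2 - s2 k * m ^ 2) * n ^ 2 ≤ (-1) * n ^ 2 :=
        mul_le_mul_of_nonneg_right (by linarith) (by positivity)
      have h3 : (0 : ℤ) ≤ s2 k * m ^ 2 * (4 * n + 4 + k ^ 2) := by positivity
      have h4 : (s2 m : ℤ) * k ^ 2 * m ^ 2 ≤ (2 * m ^ 2) * k ^ 2 * m ^ 2 := by
        refine mul_le_mul_of_nonneg_right (mul_le_mul_of_nonneg_right hsm ?_) ?_ <;> positivity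
      have h5 : (2 * (m : ℤ) ^ 2) * k ^ 2 * m ^ 2 ≤ 2 * n * (m ^ 2 * k ^ 2) := by
        have h6 : (0 : ℤ) ≤ (n - m ^ 2) * (m ^ 2 * k ^ 2) := by
          apply mul_nonneg
          · linarith
          · positivity
        nlinarith
      have h7 : (0 : ℤ) ≤ n * (m ^ 2 * k ^ 2) := by positivity
      linarith
    · exfalso
      rw [h1, zero_mul] at key
      have h2 : (s2 k : ℤ) * m ^ 2 * (4 * n + 4 + k ^ 2 - m ^ 2) = 0 := by
        linear_combination -key + (m : ℤ) ^ 2 * h1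
      have h3 : (0 : ℤ) < s2 k := by
        have h4 : 0 < s2 k := by
          unfold s2
          refine Finset.sum_pos (fun d hd => ?_) ⟨1, ?_⟩
          · have := Nat.pos_of_mem_divisors hd
            positivity
          · rw [Nat.mem_divisors]
            exact ⟨one_dvd _, by omega⟩
        exact_mod_cast h4
      have h4 : (0 : ℤ) < 4 * n + 4 + k ^ 2 - m ^ 2 := by linarith [sq_nonneg (k : ℤ)]
      have h5 : (0 : ℤ) < (s2 k : ℤ) * m ^ 2 * (4 * n + 4 + k ^ 2 - m ^ 2) := by positivity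
      linarith
    · have h2 : 1 * (n : ℤ) ^ 2 ≤ ((s2 m : ℤ) * k ^ 2 - s2 k * m ^ 2) * n ^ 2 :=
        mul_le_mul_of_nonneg_right (by linarith) (by positivity)
      have h3 : (0 : ℤ) ≤ s2 m * k ^ 2 * m ^ 2 := by positivity
      have h4 : (s2 k : ℤ) * m ^ 2 * (4 * n + 4 + k ^ 2) ≤ (2 * k ^ 2) * m ^ 2 * (9 * n) := by
        have h5 : (4 * n + 4 + (k : ℤ) ^ 2) ≤ 9 * n := by linarith
        calc (s2 k : ℤ) * m ^ 2 * (4 * n + 4 + k ^ 2) ≤ (s2 k : ℤ) * m ^ 2 * (9 * n) :=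
              mul_le_mul_of_nonneg_left h5 (by positivity)
          _ ≤ (2 * k ^ 2) * m ^ 2 * (9 * n) := by
              refine mul_le_mul_of_nonneg_right (mul_le_mul_of_nonneg_right hsk ?_) ?_ <;> positivity
      linarith
  have h1 : ((p : ℤ) * q) ^ 2 * (m ^ 2 * k ^ 2) = n ^ 2 * (n + 2) ^ 2 := by
    rw [hkz]
    have : (n : ℤ) ^ 2 = (p * m) ^ 2 := by rw [hmz]
    rw [this]
    ring
  have h2 : ((p : ℤ) * q) ^ 2 * n ^ 2 ≤ 162 * n ^ 3 * n ^ 2 := by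
    have h3 : ((p : ℤ) * q) ^ 2 * n ^ 2 ≤ ((p : ℤ) * q) ^ 2 * (18 * n * (m ^ 2 * k ^ 2)) :=
      mul_le_mul_of_nonneg_left hbig (by positivity)
    have h4 : ((p : ℤ) * q) ^ 2 * (18 * n * (m ^ 2 * k ^ 2)) = 18 * n * (n ^ 2 * (n + 2) ^ 2) := by
      rw [← h1]
      ring
    have h5 : ((n : ℤ) + 2) ^ 2 ≤ 9 * n ^ 2 := sq_bd hnz0
    have h6 : 18 * (n : ℤ) * (n ^ 2 * (n + 2) ^ 2) ≤ 18 * n * (n ^ 2 * (9 * n ^ 2)) :=
      mul_le_mul_of_nonneg_left (mul_le_mul_of_nonneg_left h5 (by positivity)) (by positivity)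
    calc ((p : ℤ) * q) ^ 2 * n ^ 2 ≤ _ := h3
      _ = _ := h4
      _ ≤ _ := h6
      _ = 162 * n ^ 3 * n ^ 2 := by ring
  have h3 : ((p : ℤ) * q) ^ 2 ≤ 162 * n ^ 3 := le_of_mul_le_mul_right h2 (by positivity)
  exact_mod_cast h3

end Pool.Agent.H14.Sg
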