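import Pool.Agent.H14.Sg.B
import Pool.Agent.H92.DivBound

/-! # [H14 Sg E] The number of solutions `n ≤ N` with `n` and `n + 2` products of two primes -/

namespace Pool.Agent.H14.Sg

open Finset

private def gE (x : Σ _ : ℕ, ℕ) : ℕ := x.1 * (3 * x.1 + 2 * x.2 + (x.1 ^ 2 + 1) / x.2)

private def tE (N : ℕ) : Finset (Σ _ : ℕ, ℕ) := (Icc 1 (Nat.sqrt N)).sigma fun p => (p ^ 2 + 1).divisors

private theorem sub_image (N : ℕ) : {n : ℕ | n ≤ N ∧ ∃ p a b, Par p a b n} ⊆ ((tE N).image gE : Finset ℕ) := by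
  rintro n ⟨hnN, p, a, b, hab, h1, hp, -, -, -, hn⟩
  have ha : 0 < a := by
    rcases Nat.eq_zero_or_pos a with h | h
    · rw [h] at h1
      simp at h1
    · exact h
  rw [Finset.mem_coe, mem_image]
  refine ⟨⟨p, a⟩, ?_, ?_⟩
  · unfold tE
    rw [mem_sigma, mem_Icc, Nat.mem_divisors]
    refine ⟨⟨hp.one_lt.le, ?_⟩, ⟨2 * b, by rw [← h1]; ring⟩, by positivity⟩
    rw [Nat.le_sqrt]
    show p * p ≤ N
    refine le_trans ?_ hnN
    rw [hn]
    exact Nat.mul_le_mul_left p (by omega)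
  · show p * (3 * p + 2 * a + (p ^ 2 + 1) / a) = n
    have h2 : (p ^ 2 + 1) / a = 2 * b := by
      rw [← h1, show 2 * (a * b) = a * (2 * b) by ring, Nat.mul_div_cancel_left _ ha]
    rw [h2, hn]

theorem count_le (ε : ℝ) (hε : 0 < ε) : ∃ C : ℝ, 0 < C ∧ ∀ N : ℕ, 1 ≤ N →
    ({n : ℕ | n ≤ N ∧ ∃ p a b, Par p a b n}.ncard : ℝ) ≤ C * (N : ℝ) ^ (1 / 2 + ε) := by
  obtain ⟨C, hC, hd⟩ := Pool.Agent.H5.W.divisor_bound ε hε
  refine ⟨C * 2 ^ ε, by positivity, fun N hN => ?_⟩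
  have hN0 : (0 : ℝ) < N := by exact_mod_cast hN
  have h1 : ({n : ℕ | n ≤ N ∧ ∃ p a b, Par p a b n}.ncard) ≤ (tE N).card := by
    refine (Set.ncard_le_ncard (sub_image N) (Finset.finite_toSet _)).trans ?_
    rw [Set.ncard_coe_finset]
    exact card_image_le
  have h2 : ((tE N).card : ℝ) ≤ Nat.sqrt N * (C * (2 * N : ℝ) ^ ε) := by
    unfold tE
    rw [card_sigma]
    push_cast
    calc ∑ p ∈ Icc 1 (Nat.sqrt N), ((p ^ 2 + 1).divisors.card : ℝ)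
        ≤ ∑ p ∈ Icc 1 (Nat.sqrt N), C * (2 * N : ℝ) ^ ε := by
          refine sum_le_sum fun p hp => ?_
          rw [mem_Icc, Nat.le_sqrt] at hp
          refine (hd (p ^ 2 + 1) (by omega)).trans ?_
          refine mul_le_mul_of_nonneg_left ?_ hC.le
          refine Real.rpow_le_rpow (by positivity) ?_ hε.le
          have h3 : p ^ 2 + 1 ≤ 2 * N := by nlinarith [hp.2]
          exact_mod_cast h3
      _ = Nat.sqrt N * (C * (2 * N : ℝ) ^ ε) := by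
          rw [sum_const, Nat.card_Icc, nsmul_eq_mul]
          simp
  have h3 : ((Nat.sqrt N : ℕ) : ℝ) ≤ (N : ℝ) ^ (1 / 2 : ℝ) := by
    rw [← Real.sqrt_eq_rpow]
    exact Real.nat_sqrt_le_real_sqrt
  calc ({n : ℕ | n ≤ N ∧ ∃ p a b, Par p a b n}.ncard : ℝ) ≤ ((tE N).card : ℝ) := by exact_mod_cast h1
    _ ≤ Nat.sqrt N * (C * (2 * N : ℝ) ^ ε) := h2
    _ ≤ (N : ℝ) ^ (1 / 2 : ℝ) * (C * (2 * N : ℝ) ^ ε) := by gcongr
    _ = C * 2 ^ ε * (N : ℝ) ^ (1 / 2 + ε) := by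
        rw [Real.mul_rpow (by norm_num) hN0.le, Real.rpow_add hN0]
        ring

end Pool.Agent.H14.Sg
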