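import Mathlib

/-! # [H14 Sg A] sums of squares of divisors: values at products of two primes

`s2 n = ∑_{d | n} d²`. For MP_cb3c8e_nt (`s2 n = s2 (n+2)`). -/

namespace Pool.Agent.H14.Sg

open Finset

/-- the sum of the squares of the divisors -/
def s2 (n : ℕ) : ℕ := ∑ d ∈ n.divisors, d ^ 2

theorem s2_eq (n : ℕ) : s2 n = ArithmeticFunction.sigma 2 n := by
  unfold s2
  rw [ArithmeticFunction.sigma_apply]

theorem s2_mul {m n : ℕ} (h : m.Coprime n) : s2 (m * n) = s2 m * s2 n := by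
  rw [s2_eq, s2_eq, s2_eq]
  exact ArithmeticFunction.isMultiplicative_sigma.map_mul_of_coprime h

theorem s2_prime {p : ℕ} (hp : p.Prime) : s2 p = p ^ 2 + 1 := by
  unfold s2
  rw [hp.divisors, Finset.sum_pair hp.one_lt.ne]
  ring

theorem s2_prime_sq {p : ℕ} (hp : p.Prime) : s2 (p * p) = p ^ 4 + p ^ 2 + 1 := by
  have h : s2 (p ^ 2) = p ^ 4 + p ^ 2 + 1 := by
    unfold s2
    rw [Nat.divisors_prime_pow hp, Finset.sum_map]
    simp only [Function.Embedding.coeFn_mk, Finset.sum_range_succ, Finset.sum_range_zero]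
    ring
  rw [← h]
  congr 1
  ring

theorem s2_two {p q : ℕ} (hp : p.Prime) (hq : q.Prime) (hpq : p ≠ q) :
    s2 (p * q) = (p ^ 2 + 1) * (q ^ 2 + 1) := by
  rw [s2_mul ((Nat.coprime_primes hp hq).2 hpq), s2_prime hp, s2_prime hq]

/-- `n² + 1 ≤ s2 n` -/
theorem s2_ge {n : ℕ} (hn : 1 < n) : n ^ 2 + 1 ≤ s2 n := by
  unfold s2
  have h1 : ({1, n} : Finset ℕ) ⊆ n.divisors := by
    intro d hd
    rw [Finset.mem_insert, Finset.mem_singleton] at hd
    rw [Nat.mem_divisors]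
    rcases hd with rfl | rfl
    · exact ⟨one_dvd _, by omega⟩
    · exact ⟨dvd_rfl, by omega⟩
  have h2 := Finset.sum_le_sum_of_subset (f := fun d => d ^ 2) h1
  rw [Finset.sum_pair hn.ne] at h2
  linarith

/-- a divisor `k`, `1 < k < n`, contributes `k²` -/
theorem s2_ge_add {n k : ℕ} (hk : 1 < k) (hkn : k < n) (hd : k ∣ n) : n ^ 2 + k ^ 2 + 1 ≤ s2 n := by
  unfold s2
  have h1 : ({1, k, n} : Finset ℕ) ⊆ n.divisors := by
    intro d hd'
    rw [Finset.mem_insert, Finset.mem_insert, Finset.mem_singleton] at hd'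
    rw [Nat.mem_divisors]
    rcases hd' with rfl | rfl | rfl
    · exact ⟨one_dvd _, by omega⟩
    · exact ⟨hd, by omega⟩
    · exact ⟨dvd_rfl, by omega⟩
  have h2 := Finset.sum_le_sum_of_subset (f := fun d => d ^ 2) h1
  rw [Finset.sum_insert (by simp; omega), Finset.sum_pair hkn.ne] at h2
  linarith

/-- `s2 n ≤ 2 n²` -/
theorem s2_le (n : ℕ) : s2 n ≤ 2 * n ^ 2 := by
  rcases Nat.eq_zero_or_pos n with rfl | hn
  · simp [s2]
  have h1 : s2 n = ∑ d ∈ n.divisors, (n / d) ^ 2 := by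
    unfold s2
    exact (Nat.sum_div_divisors n (fun d => d ^ 2)).symm
  have h2 : ((s2 n : ℕ) : ℝ) ≤ 2 * (n : ℝ) ^ 2 := by
    rw [h1]
    push_cast
    have h3 : ∑ d ∈ n.divisors, ((n / d : ℕ) : ℝ) ^ 2 ≤ ∑ d ∈ n.divisors, (n : ℝ) ^ 2 * (1 / (d : ℝ) ^ 2) := by
      refine Finset.sum_le_sum fun d hd => ?_
      have h4 : ((n / d : ℕ) : ℝ) ≤ (n : ℝ) / d := Nat.cast_div_le
      calc ((n / d : ℕ) : ℝ) ^ 2 ≤ ((n : ℝ) / d) ^ 2 := pow_le_pow_left₀ (Nat.cast_nonneg _) h4 2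
        _ = (n : ℝ) ^ 2 * (1 / (d : ℝ) ^ 2) := by ring
    refine h3.trans ?_
    rw [← Finset.mul_sum, mul_comm (2 : ℝ)]
    refine mul_le_mul_of_nonneg_left ?_ (by positivity)
    have h5 : ∑ d ∈ n.divisors, 1 / (d : ℝ) ^ 2 ≤ ∑ d ∈ Finset.Icc 1 n, 1 / (d : ℝ) ^ 2 := by
      refine Finset.sum_le_sum_of_subset_of_nonneg ?_ fun _ _ _ => by positivity
      intro d hd
      rw [Finset.mem_Icc]
      exact ⟨Nat.pos_of_mem_divisors hd, Nat.divisor_le hd⟩
    refine h5.trans ?_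
    have h6 : ∀ N : ℕ, 1 ≤ N → ∑ d ∈ Finset.Icc 1 N, 1 / (d : ℝ) ^ 2 ≤ 2 - 1 / (N : ℝ) := by
      intro N hN
      induction N, hN using Nat.le_induction with
      | base => norm_num
      | succ N hN ih =>
        rw [Finset.sum_Icc_succ_top (by omega)]
        have hN' : (0 : ℝ) < N := by exact_mod_cast hN
        have h7 : 1 / ((N + 1 : ℕ) : ℝ) ^ 2 ≤ 1 / (N : ℝ) - 1 / ((N + 1 : ℕ) : ℝ) := by
          push_cast
          rw [div_sub_div _ _ hN'.ne' (by positivity), div_le_div_iff₀ (by positivity) (by positivity)]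
          nlinarith
        linarith
    have h8 := h6 n hn
    have h9 : (0 : ℝ) ≤ 1 / (n : ℝ) := by positivity
    linarith
  exact_mod_cast h2

end Pool.Agent.H14.Sg
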