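import Pool.Agent.H14.Sg.A

/-! # [H14 Sg B] `s2 n = s2 (n+2)` with `n` and `n+2` products of two primes -/

namespace Pool.Agent.H14.Sg

open Finset

/-- the parameters: `n = p (3p + 2a + 2b)`, `n + 2 = (p + 2a)(p + 2b)`, `2ab = p² + 1` -/
def Par (p a b n : ℕ) : Prop :=
  a < b ∧ 2 * (a * b) = p ^ 2 + 1 ∧ p.Prime ∧ (p + 2 * a).Prime ∧ (p + 2 * b).Prime ∧ (3 * p + 2 * a + 2 * b).Prime ∧
    n = p * (3 * p + 2 * a + 2 * b)

theorem Par.add_two {p a b n : ℕ} (h : Par p a b n) : n + 2 = (p + 2 * a) * (p + 2 * b) := by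
  obtain ⟨_, h1, _, _, _, _, rfl⟩ := h
  nlinarith

theorem Par.eq {p a b n : ℕ} (h : Par p a b n) : s2 n = s2 (n + 2) := by
  have h2 := h.add_two
  obtain ⟨hab, h1, hp, hr, hs, hq, hn⟩ := h
  rw [h2, hn, s2_two hp hq (by omega), s2_two hr hs (by omega)]
  have h3 : ((p : ℤ) ^ 2 + 1) * ((3 * p + 2 * a + 2 * b) ^ 2 + 1) = ((p + 2 * a) ^ 2 + 1) * ((p + 2 * b) ^ 2 + 1) := by
    have h4 : 2 * ((a : ℤ) * b) = p ^ 2 + 1 := by exact_mod_cast h1
    linear_combination (-4 * ((p : ℤ) * (3 * p + 2 * a + 2 * b) + (2 * (a * b) - p ^ 2))) * h4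
  exact_mod_cast h3

/-- `n = p²` is impossible -/
theorem no_sq_left {p m : ℕ} (hp : p.Prime) (hm : p * p + 2 = m) : s2 (p * p) ≠ s2 m := by
  intro h
  have h1 := s2_ge (n := m) (by nlinarith [hp.two_le])
  rw [← h, s2_prime_sq hp, ← hm] at h1
  nlinarith

/-- `n + 2 = r²` is impossible: modulo 7 -/
theorem no_sq_right {p q r : ℕ} (hp : p.Prime) (hq : q.Prime) (hpq : p ≠ q) (hr : r.Prime)
    (hn : p * q + 2 = r * r) : s2 (p * q) ≠ s2 (r * r) := by
  intro h
  rw [s2_two hp hq hpq, s2_prime_sq hr] at h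
  have h1 : ((p : ZMod 7) + q) ^ 2 = 6 := by
    have h2 : (((p ^ 2 + 1) * (q ^ 2 + 1) : ℕ) : ZMod 7) = ((r ^ 4 + r ^ 2 + 1 : ℕ) : ZMod 7) := by rw [h]
    have h3 : ((p * q + 2 : ℕ) : ZMod 7) = ((r * r : ℕ) : ZMod 7) := by rw [hn]
    push_cast at h2 h3
    have h4 : (r : ZMod 7) ^ 2 = p * q + 2 := by
      rw [h3]
      ring
    have h5 : (r : ZMod 7) ^ 4 = (p * q + 2) ^ 2 := by
      rw [← h4]
      ring
    rw [h5, h4] at h2
    have h7 : (7 : ZMod 7) = 0 := by decide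
    linear_combination h2 + (p * q : ZMod 7) * h7
  have h8 : ∀ x : ZMod 7, x ^ 2 ≠ 6 := by decide
  exact h8 _ h1

/-- the main case -/
theorem param {p q r s : ℕ} (hp : p.Prime) (hq : q.Prime) (hr : r.Prime) (hs : s.Prime) (hpq : p < q) (hrs : r < s)
    (hn : p * q + 2 = r * s) (h : s2 (p * q) = s2 (r * s)) : ∃ a b, Par p a b (p * q) := by
  rw [s2_two hp hq hpq.ne, s2_two hr hs hrs.ne] at h
  have hz : (p : ℤ) * q + 2 = r * s := by exact_mod_cast hn
  have hz2 : ((p : ℤ) ^ 2 + 1) * (q ^ 2 + 1) = (r ^ 2 + 1) * (s ^ 2 + 1) := by exact_mod_cast h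
  have h1 : ((q : ℤ) - p) ^ 2 = (r + s) ^ 2 := by
    have e1 : ((r : ℤ) * s) ^ 2 = (p * q + 2) ^ 2 := by rw [hz]
    linear_combination hz2 + e1 + 2 * hz
  have h2 : (q : ℤ) = p + r + s := by
    have h3 : (0 : ℤ) < q - p := by
      have : (p : ℤ) < q := by exact_mod_cast hpq
      linarith
    have h4 : (0 : ℤ) < r + s := by
      have := hr.pos
      have := hs.pos
      positivity
    have h5 := (sq_eq_sq₀ h3.le h4.le).1 h1
    linarith
  have h3 : ((r : ℤ) - p) * (s - p) = 2 * p ^ 2 + 2 := by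
    rw [h2] at hz
    linear_combination -hz
  have hpr : p < r := by
    by_contra hcon
    push Not at hcon
    have h4 : (r : ℤ) ≤ p := by exact_mod_cast hcon
    have hr0 : (0 : ℤ) < r := by exact_mod_cast hr.pos
    have hs0 : (0 : ℤ) < s := by exact_mod_cast hs.pos
    rcases le_or_gt (s : ℤ) p with h5 | h5
    · nlinarith [mul_nonneg (sub_nonneg.2 h4) (sub_nonneg.2 h5)]
    · nlinarith [mul_nonneg (sub_nonneg.2 h4) (sub_pos.2 h5).le]
  obtain ⟨u, rfl⟩ : ∃ u, r = p + u := ⟨r - p, by omega⟩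
  obtain ⟨v, rfl⟩ : ∃ v, s = p + v := ⟨s - p, by omega⟩
  have huv : u * v = 2 * p ^ 2 + 2 := by
    push_cast at h3
    have h4 : (u : ℤ) * v = 2 * p ^ 2 + 2 := by linear_combination h3
    exact_mod_cast h4
  have hq' : q = 3 * p + u + v := by
    have h4 : (q : ℤ) = ((3 * p + u + v : ℕ) : ℤ) := by
      rw [h2]
      push_cast
      ring
    exact_mod_cast h4
  have hu0 : 0 < u := by
    rcases Nat.eq_zero_or_pos u with h4 | h4
    · rw [h4] at huv
      nlinarith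
    · exact h4
  have hp2 : p ≠ 2 := by
    intro h4
    subst h4
    have hu' := hr.eq_two_or_odd
    have hv' := hs.eq_two_or_odd
    have hu2 : u % 2 = 1 := by omega
    have hv2 : v % 2 = 1 := by omega
    have h5 : (u * v) % 2 = 1 := by
      rw [Nat.mul_mod, hu2, hv2]
    rw [huv] at h5
    norm_num at h5
  have hpo := (hp.eq_two_or_odd).resolve_left hp2
  have hro := (hr.eq_two_or_odd).resolve_left (by have := hp.two_le; omega)
  have hso := (hs.eq_two_or_odd).resolve_left (by have := hp.two_le; omega)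
  obtain ⟨a, rfl⟩ : ∃ a, u = 2 * a := ⟨u / 2, by omega⟩
  obtain ⟨b, rfl⟩ : ∃ b, v = 2 * b := ⟨v / 2, by omega⟩
  refine ⟨a, b, by omega, ?_, hp, hr, hs, ?_, ?_⟩
  · nlinarith
  · rw [← hq']
    exact hq
  · rw [← hq']

/-- a product of two primes -/
def Semi (n : ℕ) : Prop := ∃ p q, p.Prime ∧ q.Prime ∧ n = p * q

theorem classification (n : ℕ) : (Semi n ∧ Semi (n + 2) ∧ s2 n = s2 (n + 2)) ↔ ∃ p a b, Par p a b n := by
  constructor
  · rintro ⟨⟨p, q, hp, hq, hn⟩, ⟨r, s, hr, hs, hn2⟩, h⟩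
    wlog hpq : p ≤ q generalizing p q
    · exact this q p hq hp (by rw [hn, mul_comm]) (by omega)
    wlog hrs : r ≤ s generalizing r s
    · exact this s r hs hr (by rw [hn2, mul_comm]) (by omega)
    rcases hpq.eq_or_lt with h1 | h1
    · subst h1
      rw [hn2] at h
      rw [hn] at h hn2
      exact absurd h (no_sq_left hp (by rw [hn2]))
    · rcases hrs.eq_or_lt with h2 | h2
      · subst h2
        rw [hn2] at h
        rw [hn] at h hn2
        exact absurd h (no_sq_right hp hq h1.ne hr hn2)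
      · rw [hn2] at h
        rw [hn] at h hn2
        obtain ⟨a, b, hab⟩ := param hp hq hr hs h1 h2 hn2 h
        rw [hn]
        exact ⟨p, a, b, hab⟩
  · rintro ⟨p, a, b, h⟩
    refine ⟨?_, ?_, h.eq⟩
    · obtain ⟨_, _, hp, _, _, hq, hn⟩ := h
      exact ⟨p, _, hp, hq, hn⟩
    · have h2 := h.add_two
      obtain ⟨_, _, _, hr, hs, _, _⟩ := h
      exact ⟨_, _, hr, hs, h2⟩

end Pool.Agent.H14.Sg
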