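import Pool.Agent.H14.Sg.B

/-! # [H14 Sg C] `72 ∣ n + 1`; no solution with `n` or `n + 2` prime; the largest prime factors -/

namespace Pool.Agent.H14.Sg

open Finset

/-- `p² ≡ 1` modulo 24 -/
private theorem sq24 {p : ℕ} (hp : p.Prime) (h : 5 ≤ p) : ∃ k : ℤ, (p : ℤ) ^ 2 - 1 = 24 * k := by
  have h2 : p % 2 = 1 := (hp.eq_two_or_odd).resolve_left (by omega)
  have h3 : p % 3 ≠ 0 := by
    intro h3
    have := (Nat.prime_dvd_prime_iff_eq Nat.prime_three hp).1 (Nat.dvd_of_mod_eq_zero h3)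
    omega
  have h24 : p % 24 = 1 ∨ p % 24 = 5 ∨ p % 24 = 7 ∨ p % 24 = 11 ∨ p % 24 = 13 ∨ p % 24 = 17 ∨ p % 24 = 19 ∨
      p % 24 = 23 := by omega
  have h4 : ((24 : ℕ) : ℤ) ∣ (p : ℤ) ^ 2 - 1 := by
    rw [← ZMod.intCast_zmod_eq_zero_iff_dvd]
    push_cast
    have h5 : (p : ZMod 24) = ((p % 24 : ℕ) : ZMod 24) := by simp
    rw [h5]
    rcases h24 with h | h | h | h | h | h | h | h <;> rw [h] <;> decide
  obtain ⟨k, hk⟩ := h4
  exact ⟨k, by simpa using hk⟩

theorem Par.dvd72 {p a b n : ℕ} (h : Par p a b n) : 72 ∣ n + 1 := by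
  have he := h.eq
  have h2 := h.add_two
  obtain ⟨hab, h1, hp, hr, hs, hq, hn⟩ := h
  have hp2 : p ≠ 2 := by
    rintro rfl
    omega
  have hp3 : p ≠ 3 := by
    rintro rfl
    have h5 : a * b = 5 := by omega
    have h6 : a ∣ 5 := ⟨b, h5.symm⟩
    rcases (Nat.dvd_prime (by norm_num)).1 h6 with h7 | h7
    · subst h7
      have h8 : b = 5 := by omega
      subst h8
      norm_num at hq
    · subst h7
      omega
  have hp5 : 5 ≤ p := by
    have := hp.two_le
    have : p ≠ 4 := by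
      rintro rfl
      norm_num at hp
    omega
  obtain ⟨k1, hk1⟩ := sq24 hp hp5
  obtain ⟨k2, hk2⟩ := sq24 hq (by omega)
  obtain ⟨k3, hk3⟩ := sq24 hr (by omega)
  obtain ⟨k4, hk4⟩ := sq24 hs (by omega)
  rw [h2, hn, s2_two hp hq (by omega), s2_two hr hs (by omega)] at he
  have he' : ((p : ℤ) ^ 2 + 1) * (((3 * p + 2 * a + 2 * b : ℕ) : ℤ) ^ 2 + 1) =
      (((p + 2 * a : ℕ) : ℤ) ^ 2 + 1) * (((p + 2 * b : ℕ) : ℤ) ^ 2 + 1) := by exact_mod_cast he
  have hn' : (n : ℤ) = p * ((3 * p + 2 * a + 2 * b : ℕ) : ℤ) := by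
    rw [hn]
    push_cast
    ring
  have h2' : (n : ℤ) + 2 = ((p + 2 * a : ℕ) : ℤ) * ((p + 2 * b : ℕ) : ℤ) := by exact_mod_cast h2
  have h5 : (n : ℤ) + 1 = 72 * (k3 * k4 - k1 * k2) := by
    have e1 : (n : ℤ) ^ 2 = (p * ((3 * p + 2 * a + 2 * b : ℕ) : ℤ)) ^ 2 := by rw [hn']
    have e2 : ((n : ℤ) + 2) ^ 2 = (((p + 2 * a : ℕ) : ℤ) * ((p + 2 * b : ℕ) : ℤ)) ^ 2 := by rw [h2']
    have e3 : ((p : ℤ) ^ 2 - 1) * (((3 * p + 2 * a + 2 * b : ℕ) : ℤ) ^ 2 - 1) = (24 * k1) * (24 * k2) := by rw [hk1, hk2]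
    have e4 : (((p + 2 * a : ℕ) : ℤ) ^ 2 - 1) * (((p + 2 * b : ℕ) : ℤ) ^ 2 - 1) = (24 * k3) * (24 * k4) := by
      rw [hk3, hk4]
    have e5 : 8 * ((n : ℤ) + 1) = 8 * (72 * (k3 * k4 - k1 * k2)) := by
      linear_combination 2 * e2 - 2 * e1 - he' + e4 - e3
    linarith
  have h6 : (72 : ℤ) ∣ ((n + 1 : ℕ) : ℤ) := ⟨k3 * k4 - k1 * k2, by push_cast; exact h5⟩
  exact_mod_cast h6

/-- `n` is not prime -/
theorem not_prime_left {n : ℕ} (hn : n.Prime) : s2 n ≠ s2 (n + 2) := by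
  intro h
  have h1 := s2_ge (n := n + 2) (by omega)
  rw [← h, s2_prime hn] at h1
  have h2 : (n + 2) ^ 2 = n ^ 2 + 4 * n + 4 := by ring
  omega

private theorem small : ∀ n < 43, 0 < n → s2 n ≠ n ^ 2 + 4 * n + 5 := by
  unfold s2
  decide +kernel

/-- `n + 2` is not prime -/
theorem not_prime_right {n : ℕ} (hn0 : 0 < n) (hn : (n + 2).Prime) : s2 n ≠ s2 (n + 2) := by
  intro h
  have hnp : ¬ n.Prime := fun h1 => not_prime_left h1 h
  rw [s2_prime hn] at h
  have h1 : s2 n = n ^ 2 + 4 * n + 5 := by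
    rw [h]
    ring
  have hn43 : 43 ≤ n := by
    by_contra hcon
    exact small n (by omega) hn0 h1
  obtain ⟨t, ht⟩ : ∃ t, t = n.minFac := ⟨_, rfl⟩
  have htp : t.Prime := by
    rw [ht]
    exact Nat.minFac_prime (by omega)
  obtain ⟨k, hk⟩ : t ∣ n := by
    rw [ht]
    exact n.minFac_dvd
  have hk1 : 1 < k := by
    rcases Nat.lt_or_ge 1 k with h2 | h2
    · exact h2
    · exfalso
      interval_cases k
      · omega
      · rw [mul_one] at hk
        rw [hk] at hnp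
        exact hnp htp
  have hkn : k < n := by
    rw [hk]
    have := htp.two_le
    nlinarith
  have hdk : k ∣ n := ⟨t, by rw [hk, mul_comm]⟩
  have h2 := s2_ge_add hk1 hkn hdk
  rw [h1] at h2
  have h3 : k ^ 2 ≤ 4 * n + 4 := by omega
  have h4 : k ≤ 4 * t + 1 := by
    by_contra hcon
    push Not at hcon
    rw [hk] at h3
    have hk5 : 5 ≤ k := by
      have := htp.two_le
      omega
    nlinarith
  have hmin : t ≤ k.minFac := by
    rw [ht]
    exact Nat.minFac_le_of_dvd (Nat.minFac_prime (by omega)).two_le ((Nat.minFac_dvd k).trans hdk)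
  by_cases hkp : k.Prime
  · by_cases htk : t = k
    · subst htk
      rw [hk, s2_prime_sq htp] at h1
      nlinarith
    · rw [hk, s2_two htp hkp htk] at h1
      have h5 : (t : ℤ) ^ 2 + k ^ 2 = 4 * t * k + 4 := by
        have h6 : (((t ^ 2 + 1) * (k ^ 2 + 1) : ℕ) : ℤ) = (((t * k) ^ 2 + 4 * (t * k) + 5 : ℕ) : ℤ) := by rw [h1]
        push_cast at h6
        linear_combination h6
      have h6 : ((t : ZMod 8)) ^ 2 + k ^ 2 = 4 * t * k + 4 := by
        have h7 := congrArg (fun z : ℤ => (z : ZMod 8)) h5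
        push_cast at h7
        exact h7
      rcases htp.eq_two_or_odd with h7 | h7
      · rw [h7] at h5
        have h8 : (k : ℤ) * k = k * 8 := by
          push_cast at h5
          linear_combination h5
        have hk0 : (k : ℤ) ≠ 0 := by
          have : k ≠ 0 := by omega
          exact_mod_cast this
        have h9 : (k : ℤ) = 8 := mul_left_cancel₀ hk0 h8
        have h10 : k = 8 := by exact_mod_cast h9
        rw [h10] at hkp
        norm_num at hkp
      · rcases hkp.eq_two_or_odd with h8 | h8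
        · rw [h8] at hmin
          have : (2 : ℕ).minFac = 2 := by norm_num
          rw [this] at hmin
          have := htp.two_le
          omega
        · have h9 : (t : ZMod 8) = ((t % 8 : ℕ) : ZMod 8) := by simp
          have h10 : (k : ZMod 8) = ((k % 8 : ℕ) : ZMod 8) := by simp
          rw [h9, h10] at h6
          have h11 : t % 8 = 1 ∨ t % 8 = 3 ∨ t % 8 = 5 ∨ t % 8 = 7 := by omega
          have h12 : k % 8 = 1 ∨ k % 8 = 3 ∨ k % 8 = 5 ∨ k % 8 = 7 := by omega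
          revert h6
          rcases h11 with h11 | h11 | h11 | h11 <;> rcases h12 with h12 | h12 | h12 | h12 <;>
            rw [h11, h12] <;> decide
  · have h5 : k.minFac ^ 2 ≤ k := Nat.minFac_sq_le_self (by omega) hkp
    have h6 : t ^ 2 ≤ 4 * t + 1 := (Nat.pow_le_pow_left hmin 2).trans (h5.trans h4)
    have h7 : t ≤ 4 := by
      by_contra hcon
      push Not at hcon
      nlinarith
    have h8 : t = 2 ∨ t = 3 := by
      have := htp.two_le
      interval_cases t
      · exact Or.inl rfl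
      · exact Or.inr rfl
      · norm_num at htp
    rcases h8 with h8 | h8
    · rw [h8] at hk h4
      omega
    · rw [h8] at hk h4
      omega

end Pool.Agent.H14.Sg
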